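import Pool.Agent.helper90.ZD.SpecB

/-!
# Module BC2 (project zd, MP_4467b5_nt)
-/

set_option autoImplicit false

open Complex MeasureTheory

namespace Pool.Agent.ZD

open Pool.Agent.helper84.DM Pool.Agent.helper78.ED Pool.Agent.DH

theorem BC2_unim (z : ℂ) : ∃ c : ℂ, ‖c‖ ≤ 1 ∧ c * z = (‖z‖ : ℂ) := by
  rcases eq_or_ne z 0 with rfl | hz
  · exact ⟨0, by simp, by simp⟩
  · refine ⟨(‖z‖ : ℂ) / z, ?_, ?_⟩
    · have : ‖z‖ ≠ 0 := norm_ne_zero_iff.2 hz
      simp [this]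
    · field_simp

theorem BC2_cpow {n : ℕ} (hn : 1 ≤ n) (t : ℝ) :
    (n : ℂ) ^ (-((t : ℂ) * I)) = Complex.exp (((t * (-Real.log n) : ℝ) : ℂ) * I) := by
  have hn0 : (n : ℂ) ≠ 0 := by exact_mod_cast (by omega : n ≠ 0)
  rw [Complex.cpow_def_of_ne_zero hn0]
  congr 1
  rw [show (n : ℂ) = ((n : ℝ) : ℂ) by simp, ← Complex.ofReal_log (by positivity)]
  push_cast
  ring

/-- The Gaussian is at most an indicator plus the tail. -/
theorem BC2_gauss (T η u : ℝ) (hT : 1 ≤ T) (hη : 0 ≤ η) :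
    Real.exp (-(T * u) ^ 2 / 4) ≤ (if |u| ≤ η then 1 else 0) + Real.exp (-(T * η) ^ 2 / 4) := by
  split_ifs with h
  · have h1 : Real.exp (-(T * u) ^ 2 / 4) ≤ 1 := by
      apply Real.exp_le_one_iff.2
      have : 0 ≤ (T * u) ^ 2 := by positivity
      linarith
    have h2 := Real.exp_pos (-(T * η) ^ 2 / 4)
    linarith
  · rw [zero_add]
    apply Real.exp_le_exp.2
    have h1 : η ^ 2 ≤ u ^ 2 := by
      have h3 : η ≤ |u| := le_of_lt (not_le.1 h)
      calc η ^ 2 ≤ |u| ^ 2 := by gcongr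
        _ = u ^ 2 := sq_abs u
    have h2 : (T * η) ^ 2 ≤ (T * u) ^ 2 := by
      rw [mul_pow, mul_pow]; gcongr
    linarith

theorem BC2 (h : BLS_stmt) : BC2_stmt := by
  intro T η W N a A V lam J x hT hW hN hNT hη hA hV ha hD hx hlam hρ
  classical
  set B : Finset ℕ := Finset.Ioc N (2 * N) with hB
  -- the unimodular factors
  choose θ hθ1 hθ2 using fun j : ℤ => BC2_unim (rho W (x j))
  set ν : ℝ → ℂ := fun t => ∑ j ∈ J, θ j * Complex.exp (((t * x j : ℝ) : ℂ) * I) with hν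
  -- step 1
  have h1 : (J.card : ℝ) * lam ≤ ∑ t ∈ W, ‖ν t‖ := by
    have e1 : (J.card : ℝ) * lam ≤ ∑ j ∈ J, ‖rho W (x j)‖ := by
      calc (J.card : ℝ) * lam = ∑ j ∈ J, lam := by rw [Finset.sum_const, nsmul_eq_mul]
        _ ≤ _ := Finset.sum_le_sum hρ
    have e2 : ((∑ j ∈ J, ‖rho W (x j)‖ : ℝ) : ℂ) = ∑ t ∈ W, ν t := by
      push_cast
      calc ∑ j ∈ J, ((‖rho W (x j)‖ : ℝ) : ℂ) = ∑ j ∈ J, θ j * rho W (x j) :=
            Finset.sum_congr rfl fun j _ => (hθ2 j).symm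
        _ = ∑ j ∈ J, ∑ t ∈ W, θ j * Complex.exp (((t * x j : ℝ) : ℂ) * I) := by
            refine Finset.sum_congr rfl fun j _ => ?_
            rw [rho, Finset.mul_sum]
        _ = ∑ t ∈ W, ν t := Finset.sum_comm
    have e3 : ∑ j ∈ J, ‖rho W (x j)‖ ≤ ‖∑ t ∈ W, ν t‖ := by
      rw [← e2, Complex.norm_real]
      exact le_abs_self _
    exact e1.trans (e3.trans (norm_sum_le _ _))
  have h2 : (J.card : ℝ) * lam * V ≤ ∑ t ∈ W, ‖ν t * DP N a t‖ := by
    calc (J.card : ℝ) * lam * V ≤ (∑ t ∈ W, ‖ν t‖) * V := mul_le_mul_of_nonneg_right h1 hV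
      _ = ∑ t ∈ W, ‖ν t‖ * V := Finset.sum_mul _ _ _
      _ ≤ ∑ t ∈ W, ‖ν t * DP N a t‖ := by
          refine Finset.sum_le_sum fun t ht => ?_
          rw [norm_mul]
          exact mul_le_mul_of_nonneg_left (hD t ht) (norm_nonneg _)
  have h3 : ((J.card : ℝ) * lam * V) ^ 2 ≤ (W.card : ℝ) * ∑ t ∈ W, ‖ν t * DP N a t‖ ^ 2 := by
    calc ((J.card : ℝ) * lam * V) ^ 2 ≤ (∑ t ∈ W, ‖ν t * DP N a t‖) ^ 2 := by
          apply pow_le_pow_left₀ (by positivity) h2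
      _ ≤ _ := sq_sum_le_card_mul_sum_sq
  -- step 2
  set m : ℤ × ℕ → ℝ := fun p => x p.1 - Real.log p.2 with hm
  set al : Unit → ℤ × ℕ → ℂ := fun _ p => θ p.1 * a p.2 with hal
  have hΛ : (1 : ℝ) ≤ Real.log T + 8 := by
    have := Real.log_nonneg hT
    linarith
  have hmb : ∀ p ∈ J ×ˢ B, |m p| ≤ Real.log T + 8 := by
    intro p hp
    rw [Finset.mem_product] at hp
    obtain ⟨hp1, hp2⟩ := hp
    rw [hB, Finset.mem_Ioc] at hp2
    have hpn : (1 : ℝ) ≤ (p.2 : ℝ) := by exact_mod_cast (by omega : 1 ≤ p.2)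
    have hl0 : 0 ≤ Real.log p.2 := Real.log_nonneg hpn
    have hp2' : (p.2 : ℝ) ≤ 2 * N := by exact_mod_cast hp2.2
    have hl1 : Real.log p.2 ≤ Real.log 2 + Real.log T := by
      rw [← Real.log_mul (by norm_num) (by positivity)]
      apply Real.log_le_log (by linarith)
      linarith
    have hl2 : Real.log 2 ≤ 1 := by
      have := Real.log_two_lt_d9
      linarith
    have hxx := abs_le.1 (hx _ hp1)
    simp only [hm]
    rw [abs_le]
    constructor <;> linarith [hxx.1, hxx.2, Real.log_nonneg hT]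
  have key : ∀ t : ℝ, ν t * DP N a t =
      ∑ p ∈ J ×ˢ B, al () p * Complex.exp (((t * m p : ℝ) : ℂ) * I) := by
    intro t
    rw [DP, hν, Finset.sum_mul_sum, Finset.sum_product]
    refine Finset.sum_congr rfl fun j _ => Finset.sum_congr rfl fun n hn => ?_
    rw [hB, Finset.mem_Ioc] at hn
    rw [BC2_cpow (by omega : 1 ≤ n)]
    simp only [hal, hm]
    rw [show θ j * Complex.exp (((t * x j : ℝ) : ℂ) * I) *
        (a n * Complex.exp (((t * (-Real.log n) : ℝ) : ℂ) * I)) = θ j * a n *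
        (Complex.exp (((t * x j : ℝ) : ℂ) * I) * Complex.exp (((t * (-Real.log n) : ℝ) : ℂ) * I))
      by ring, ← Complex.exp_add]
    congr 2
    push_cast
    ring
  have h4 := h (ℤ × ℕ) Unit (J ×ˢ B) Finset.univ al m (Real.log T + 8) T W hT hΛ hW hmb
  simp only [Finset.univ_unique, Finset.sum_singleton] at h4
  have h5 : ∑ t ∈ W, ‖ν t * DP N a t‖ ^ 2 ≤ 10 ^ 5 * T * (Real.log T + 8) ^ 2 *
      ∑ p ∈ J ×ˢ B, ∑ p' ∈ J ×ˢ B, A ^ 2 * ((if |m p - m p'| ≤ η then 1 else 0) +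
        Real.exp (-(T * η) ^ 2 / 4)) := by
    calc ∑ t ∈ W, ‖ν t * DP N a t‖ ^ 2
        = ∑ t ∈ W, ‖∑ p ∈ J ×ˢ B, al () p * Complex.exp (((t * m p : ℝ) : ℂ) * I)‖ ^ 2 :=
          Finset.sum_congr rfl fun t _ => by rw [key t]
      _ ≤ _ := h4
      _ ≤ _ := by
          refine mul_le_mul_of_nonneg_left ?_ (by positivity)
          refine Finset.sum_le_sum fun p hp => Finset.sum_le_sum fun p' hp' => ?_
          refine mul_le_mul ?_ (BC2_gauss T η _ hT hη) (Real.exp_pos _).le (by positivity)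
          have hal1 : ∀ q ∈ J ×ˢ B, ‖al () q‖ ≤ A := by
            intro q hq
            rw [Finset.mem_product] at hq
            simp only [hal]
            rw [norm_mul]
            calc ‖θ q.1‖ * ‖a q.2‖ ≤ 1 * A :=
                  mul_le_mul (hθ1 _) (ha _ hq.2) (norm_nonneg _) zero_le_one
              _ = A := one_mul A
          change ‖al () p * (starRingEnd ℂ) (al () p')‖ ≤ A ^ 2
          rw [norm_mul, RCLike.norm_conj, sq]
          exact mul_le_mul (hal1 p hp) (hal1 p' hp') (norm_nonneg _) hA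
  -- evaluation of the double sum
  have h6 : ∑ p ∈ J ×ˢ B, ∑ p' ∈ J ×ˢ B, A ^ 2 * ((if |m p - m p'| ≤ η then (1 : ℝ) else 0) +
        Real.exp (-(T * η) ^ 2 / 4)) = A ^ 2 * (∑ i ∈ J, ∑ i' ∈ J, cnt B (x i - x i') η +
      (J.card : ℝ) ^ 2 * (N : ℝ) ^ 2 * Real.exp (-(T * η) ^ 2 / 4)) := by
    have hBc : (B.card : ℝ) = N := by
      rw [hB, Nat.card_Ioc]
      push_cast [show 2 * N - N = N by omega]
      rfl
    have e1 : ∑ p ∈ J ×ˢ B, ∑ p' ∈ J ×ˢ B, (if |m p - m p'| ≤ η then (1 : ℝ) else 0) =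
        ∑ i ∈ J, ∑ i' ∈ J, cnt B (x i - x i') η := by
      rw [Finset.sum_product]
      refine Finset.sum_congr rfl fun i _ => ?_
      calc ∑ n ∈ B, ∑ p' ∈ J ×ˢ B, (if |m (i, n) - m p'| ≤ η then (1 : ℝ) else 0)
          = ∑ n ∈ B, ∑ i' ∈ J, ∑ n' ∈ B, (if |m (i, n) - m (i', n')| ≤ η then (1 : ℝ) else 0) := by
            refine Finset.sum_congr rfl fun n _ => ?_
            rw [Finset.sum_product]
        _ = ∑ i' ∈ J, ∑ n ∈ B, ∑ n' ∈ B,
              (if |m (i, n) - m (i', n')| ≤ η then (1 : ℝ) else 0) := Finset.sum_comm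
        _ = ∑ i' ∈ J, cnt B (x i - x i') η := by
            refine Finset.sum_congr rfl fun i' _ => ?_
            rw [cnt]
            refine Finset.sum_congr rfl fun n _ => Finset.sum_congr rfl fun n' _ => ?_
            simp only [hm]
            have e0 : x i - Real.log n - (x i' - Real.log n') =
              x i - x i' - (Real.log n - Real.log n') := by ring
            rw [e0]
    have e2 : ∑ p ∈ J ×ˢ B, ∑ p' ∈ J ×ˢ B, Real.exp (-(T * η) ^ 2 / 4) =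
        (J.card : ℝ) ^ 2 * (N : ℝ) ^ 2 * Real.exp (-(T * η) ^ 2 / 4) := by
      rw [Finset.sum_const, Finset.sum_const, Finset.card_product, nsmul_eq_mul, nsmul_eq_mul]
      push_cast
      rw [hBc]
      ring
    calc _ = A ^ 2 * (∑ p ∈ J ×ˢ B, ∑ p' ∈ J ×ˢ B, (if |m p - m p'| ≤ η then (1 : ℝ) else 0) +
          ∑ p ∈ J ×ˢ B, ∑ p' ∈ J ×ˢ B, Real.exp (-(T * η) ^ 2 / 4)) := by
          simp only [← Finset.mul_sum, Finset.sum_add_distrib]
      _ = _ := by rw [e1, e2]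
  rw [h6] at h5
  calc ((J.card : ℝ) * lam) ^ 2 * V ^ 2 = ((J.card : ℝ) * lam * V) ^ 2 := by ring
    _ ≤ _ := h3
    _ ≤ (W.card : ℝ) * (10 ^ 5 * T * (Real.log T + 8) ^ 2 * (A ^ 2 *
        (∑ i ∈ J, ∑ i' ∈ J, cnt B (x i - x i') η +
        (J.card : ℝ) ^ 2 * (N : ℝ) ^ 2 * Real.exp (-(T * η) ^ 2 / 4)))) :=
        mul_le_mul_of_nonneg_left h5 (Nat.cast_nonneg _)
    _ = _ := by ring

end Pool.Agent.ZD
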